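import Pool.Agent.Q227.CM.Grow

/-!
# No elementary bound for the constants of the modular recurrences of `CMSOL` counting sequences

All definitions used in the statement are in `Pool/Agent/Q227/CM/Defs.lean`:
* `Fm c u b`: formulas of `CMSOL` over the vocabulary with `c` constant symbols, `u` unary and `b`
  binary relation symbols; `Fm.Sentence`: there are no free variables; `Fm.len`: the length, where
  the indices of variables are written in unary;
* `count φ n`: the number of structures with the universe `Fin n` which satisfy `φ`;
* `Recurrence s m r p`: the sequence `s` satisfies, from `r` on, a linear recurrence modulo `m` with
  `p + 1` integer coefficients;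
* `Elem k f`: the function `f : ℕ ^ k → ℕ` is (Kalmár) elementary; `tower h x`: the iterated
  exponential of height `h`.

**Proof.** A module of a binary relation `R` is a set `A` such that `R u w` does not depend on
`u ∈ A` for `w ∉ A`. The sentence `φ_L` says that `R` is irreflexive, that for every `x` the modules
containing `x` form a chain, that there is a module with two elements which are related, and that
for some `x` this chain has exactly `t_L + 1` members, where `t_0 = 1` and
`t_{k+1} = t_k 2 ^ t_k`. The last property is expressed by a formula of length `2 ^ O(L)`:
`b = a + t_{k+1}` holds for positions `a, b` of the chain iff `b` is the first position such that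
for some set `X` of positions all subsets of a segment of `t_k` positions occur as `X` intersected
with one of the segments `[a + q t_k, a + (q + 1) t_k)` before `b`. So `φ_L` has no models with at
most `t_L` elements.

The translations of `ℤ / 2 ^ h`, `h = t_L`, act on the models of `φ_L` with this universe. Hence
the number of models with `2 ^ h` elements is congruent modulo `2` to the number of the models
`R x y ↔ C (y - x)` with a set `C ⊆ ℤ / 2 ^ h`. For such a model the modules containing `0` are
subgroups, hence they are all the `h + 1` subgroups `2 ^ i ℤ / 2 ^ h`, and it follows that `C z`
depends only on the greatest `i` with `2 ^ i ∣ z` and changes whenever `i` is increased by one. There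
is exactly one model of this kind, and the number of models with `2 ^ h` elements is odd. A linear
recurrence modulo `2` with `r + p + 2 ≤ t_L` would give the value `0` modulo `2`.
-/

set_option autoImplicit false

namespace Pool.Agent.Results.MP_b66a5a_lc.NoElementaryBound

open Pool.Agent.Q227.CM

/-- For every elementary function `f`, and more generally for every function `f` bounded by an
iterated exponential of fixed height, there is a sentence `φ` of `CMSOL` over the vocabulary with one
binary relation symbol such that the counting sequence of `φ` does not satisfy a recurrence modulo
`2` with the constants `r` and `p` for any `r, p ≤ f (max |φ| 2)`. -/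
theorem result :
    ∀ f : ℕ → ℕ, (Elem 1 (fun x => f (x 0)) ∨ ∃ h, ∀ x, f x ≤ tower h x) →
      ∃ φ : Fm 0 0 1, φ.Sentence ∧
        ∀ r p, r ≤ f (max φ.len 2) → p ≤ f (max φ.len 2) → ¬ Recurrence (count φ) 2 r p := by
  intro f hf
  rcases hf with hf | hf
  · exact main (elem_bound hf)
  · exact main hf

end Pool.Agent.Results.MP_b66a5a_lc.NoElementaryBound
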